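import Mathlib

/-!
# Quadratic means of linear combinations of Dirichlet coefficients

`P` is the set of places, `x = (p, n) ∈ P × ℕ` stands for the power `p^(n+1)`, `w s x` is its weight.
-/

set_option autoImplicit false
set_option linter.unusedSectionVars false

open Filter Topology

namespace Pool.Agent.Y464.RP

variable {P X U : Type} [Fintype X] [Fintype U]

theorem summ (w : ℝ → P × ℕ → ℝ) (hw : ∀ s x, 0 ≤ w s x) (ψ : X → P × ℕ → ℂ)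
    (hψ : ∀ χ x, ‖ψ χ x‖ ≤ 1) (T : U → P × ℕ → ℂ)
    (hsum : ∀ u, ∀ s : ℝ, 1 < s → Summable fun x => ‖T u x‖ ^ 2 * w s x) (χ : X) (u v : U)
    (s : ℝ) (hs : 1 < s) :
    Summable fun x => ψ χ x * (T u x * (starRingEnd ℂ) (T v x)) * (w s x : ℂ) := by
  refine Summable.of_norm_bounded ((hsum u s hs).add (hsum v s hs)) fun x => ?_
  rw [norm_mul, norm_mul, norm_mul, Complex.norm_conj, Complex.norm_real, Real.norm_eq_abs,
    abs_of_nonneg (hw s x)]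
  have h1 : ‖T u x‖ * ‖T v x‖ ≤ ‖T u x‖ ^ 2 + ‖T v x‖ ^ 2 := by
    nlinarith [sq_nonneg (‖T u x‖ - ‖T v x‖), sq_nonneg ‖T u x‖, sq_nonneg ‖T v x‖]
  have h2 : ‖ψ χ x‖ * (‖T u x‖ * ‖T v x‖) ≤ ‖T u x‖ ^ 2 + ‖T v x‖ ^ 2 := by
    have := mul_le_mul (hψ χ x) h1 (by positivity) zero_le_one
    linarith
  calc ‖ψ χ x‖ * (‖T u x‖ * ‖T v x‖) * w s x ≤ (‖T u x‖ ^ 2 + ‖T v x‖ ^ 2) * w s x :=
        mul_le_mul_of_nonneg_right h2 (hw s x)
    _ = _ := by ring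

theorem pointwise (w : ℝ → P × ℕ → ℝ) (ψ : X → P × ℕ → ℂ) (e : X → ℂ) (g : P × ℕ → ℝ)
    (hg : ∀ x, (g x : ℂ) = ∑ χ, e χ * ψ χ x) (T : U → P × ℕ → ℂ) (c : U → ℝ) (s : ℝ) (x : P × ℕ) :
    ((g x * ‖∑ u, (c u : ℂ) * T u x‖ ^ 2 * w s x : ℝ) : ℂ) =
      ∑ χ, ∑ u, ∑ v, (e χ * (c u * c v)) * (ψ χ x * (T u x * (starRingEnd ℂ) (T v x)) * (w s x : ℂ)) := by
  have h1 : ((‖∑ u, (c u : ℂ) * T u x‖ ^ 2 : ℝ) : ℂ) =
      ∑ u, ∑ v, ((c u : ℂ) * c v) * (T u x * (starRingEnd ℂ) (T v x)) := by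
    rw [← Complex.normSq_eq_norm_sq, Complex.normSq_eq_conj_mul_self, mul_comm, map_sum, Finset.sum_mul_sum]
    refine Finset.sum_congr rfl fun u _ => Finset.sum_congr rfl fun v _ => ?_
    rw [map_mul, Complex.conj_ofReal]
    ring
  rw [Complex.ofReal_mul, Complex.ofReal_mul, h1, hg x, Finset.sum_mul, Finset.sum_mul]
  refine Finset.sum_congr rfl fun χ _ => ?_
  rw [Finset.mul_sum, Finset.sum_mul]
  refine Finset.sum_congr rfl fun u _ => ?_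
  rw [Finset.mul_sum, Finset.sum_mul]
  refine Finset.sum_congr rfl fun v _ => ?_
  ring

theorem summable_sq (w : ℝ → P × ℕ → ℝ) (hw : ∀ s x, 0 ≤ w s x) (ψ : X → P × ℕ → ℂ)
    (hψ : ∀ χ x, ‖ψ χ x‖ ≤ 1) (e : X → ℂ) (g : P × ℕ → ℝ)
    (hg : ∀ x, (g x : ℂ) = ∑ χ, e χ * ψ χ x) (T : U → P × ℕ → ℂ)
    (hsum : ∀ u, ∀ s : ℝ, 1 < s → Summable fun x => ‖T u x‖ ^ 2 * w s x) (c : U → ℝ) (s : ℝ) (hs : 1 < s) :
    Summable fun x => g x * ‖∑ u, (c u : ℂ) * T u x‖ ^ 2 * w s x := by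
  rw [← Complex.summable_ofReal]
  have h := fun x => pointwise w ψ e g hg T c s x
  simp only [h]
  exact summable_sum fun χ _ => summable_sum fun u _ => summable_sum fun v _ =>
    (summ w hw ψ hψ T hsum χ u v s hs).mul_left _

/-- The quadratic mean of a linear combination. -/
theorem core (w : ℝ → P × ℕ → ℝ) (hw : ∀ s x, 0 ≤ w s x) (ψ : X → P × ℕ → ℂ)
    (hψ : ∀ χ x, ‖ψ χ x‖ ≤ 1) (e : X → ℂ) (g : P × ℕ → ℝ)
    (hg : ∀ x, (g x : ℂ) = ∑ χ, e χ * ψ χ x) (T : U → P × ℕ → ℂ)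
    (hsum : ∀ u, ∀ s : ℝ, 1 < s → Summable fun x => ‖T u x‖ ^ 2 * w s x) (δ : X → U → U → ℝ) (L : ℝ → ℝ)
    (hD : ∀ χ u v, ∃ C : ℝ, ∀ᶠ s : ℝ in 𝓝[>] 1,
      ‖(∑' x, ψ χ x * (T u x * (starRingEnd ℂ) (T v x)) * (w s x : ℂ)) - ((δ χ u v * L s : ℝ) : ℂ)‖ ≤ C)
    (c : U → ℝ) : ∃ C : ℝ, ∀ᶠ s : ℝ in 𝓝[>] 1,
      ∑' x, g x * ‖∑ u, (c u : ℂ) * T u x‖ ^ 2 * w s x ≤
        (∑ χ, ∑ u, ∑ v, (e χ * (c u * c v) * (δ χ u v : ℂ))).re * L s + C := by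
  choose C hC using hD
  refine ⟨∑ χ, ∑ u, ∑ v, ‖e χ * (c u * c v)‖ * C χ u v, ?_⟩
  have hall : ∀ᶠ s : ℝ in 𝓝[>] 1, ∀ χ u v,
      ‖(∑' x, ψ χ x * (T u x * (starRingEnd ℂ) (T v x)) * (w s x : ℂ)) - ((δ χ u v * L s : ℝ) : ℂ)‖ ≤
        C χ u v := by
    rw [eventually_all]; intro χ
    rw [eventually_all]; intro u
    rw [eventually_all]; intro v
    exact hC χ u v
  filter_upwards [hall, self_mem_nhdsWithin] with s hs hs1
  have hs1 : 1 < s := hs1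
  have e1 : ((∑' x, g x * ‖∑ u, (c u : ℂ) * T u x‖ ^ 2 * w s x : ℝ) : ℂ) =
      ∑ χ, ∑ u, ∑ v, (e χ * (c u * c v)) *
        ∑' x, (ψ χ x * (T u x * (starRingEnd ℂ) (T v x)) * (w s x : ℂ)) := by
    rw [Complex.ofReal_tsum]
    have h := fun x => pointwise w ψ e g hg T c s x
    simp only [h]
    rw [Summable.tsum_finsetSum (fun χ _ => summable_sum fun u _ => summable_sum fun v _ =>
      (summ w hw ψ hψ T hsum χ u v s hs1).mul_left _)]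
    refine Finset.sum_congr rfl fun χ _ => ?_
    rw [Summable.tsum_finsetSum (fun u _ => summable_sum fun v _ =>
      (summ w hw ψ hψ T hsum χ u v s hs1).mul_left _)]
    refine Finset.sum_congr rfl fun u _ => ?_
    rw [Summable.tsum_finsetSum (fun v _ => (summ w hw ψ hψ T hsum χ u v s hs1).mul_left _)]
    refine Finset.sum_congr rfl fun v _ => ?_
    rw [tsum_mul_left]
  have e2 : ((∑' x, g x * ‖∑ u, (c u : ℂ) * T u x‖ ^ 2 * w s x : ℝ) : ℂ) -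
      (∑ χ, ∑ u, ∑ v, (e χ * (c u * c v) * (δ χ u v : ℂ))) * (L s : ℂ) =
      ∑ χ, ∑ u, ∑ v, (e χ * (c u * c v)) *
        ((∑' x, (ψ χ x * (T u x * (starRingEnd ℂ) (T v x)) * (w s x : ℂ))) - ((δ χ u v * L s : ℝ) : ℂ)) := by
    rw [e1, Finset.sum_mul, ← Finset.sum_sub_distrib]
    refine Finset.sum_congr rfl fun χ _ => ?_
    rw [Finset.sum_mul, ← Finset.sum_sub_distrib]
    refine Finset.sum_congr rfl fun u _ => ?_
    rw [Finset.sum_mul, ← Finset.sum_sub_distrib]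
    refine Finset.sum_congr rfl fun v _ => ?_
    push_cast
    ring
  have e3 : ‖((∑' x, g x * ‖∑ u, (c u : ℂ) * T u x‖ ^ 2 * w s x : ℝ) : ℂ) -
      (∑ χ, ∑ u, ∑ v, (e χ * (c u * c v) * (δ χ u v : ℂ))) * (L s : ℂ)‖ ≤
      ∑ χ, ∑ u, ∑ v, ‖e χ * (c u * c v)‖ * C χ u v := by
    rw [e2]
    refine (norm_sum_le _ _).trans (Finset.sum_le_sum fun χ _ => ?_)
    refine (norm_sum_le _ _).trans (Finset.sum_le_sum fun u _ => ?_)
    refine (norm_sum_le _ _).trans (Finset.sum_le_sum fun v _ => ?_)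
    rw [norm_mul]
    exact mul_le_mul_of_nonneg_left (hs χ u v) (norm_nonneg _)
  have e4 := (Complex.re_le_norm _).trans e3
  rw [Complex.sub_re, Complex.ofReal_re, Complex.re_mul_ofReal] at e4
  linarith

/-- The sum over the places of a set on which the linear combination is large. -/
theorem large (w : ℝ → P × ℕ → ℝ) (hw : ∀ s x, 0 ≤ w s x) (g : P × ℕ → ℝ) (hg0 : ∀ x, 0 ≤ g x)
    (F : P × ℕ → ℂ) (E : Set P) (M : ℝ) (hM : 0 < M) (hE : ∀ p ∈ E, M ≤ g (p, 0) * ‖F (p, 0)‖ ^ 2)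
    (s : ℝ) (hsum : Summable fun x => g x * ‖F x‖ ^ 2 * w s x) :
    M * ∑' p, E.indicator (fun p => w s (p, 0)) p ≤ ∑' x, g x * ‖F x‖ ^ 2 * w s x := by
  have h0 : ∀ x, 0 ≤ g x * ‖F x‖ ^ 2 * w s x := fun x =>
    mul_nonneg (mul_nonneg (hg0 x) (sq_nonneg _)) (hw s x)
  have hinj : Function.Injective (fun p : P => (p, 0) : P → P × ℕ) := fun a b h => (Prod.ext_iff.1 h).1
  have h1 : Summable fun p : P => g (p, 0) * ‖F (p, 0)‖ ^ 2 * w s (p, 0) := hsum.comp_injective hinj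
  have h2 : ∀ p, M * E.indicator (fun p => w s (p, 0)) p ≤ g (p, 0) * ‖F (p, 0)‖ ^ 2 * w s (p, 0) := by
    intro p
    by_cases hp : p ∈ E
    · rw [Set.indicator_of_mem hp]
      exact mul_le_mul_of_nonneg_right (hE p hp) (hw s _)
    · rw [Set.indicator_of_notMem hp, mul_zero]
      exact h0 _
  have h3 : Summable fun p : P => M * E.indicator (fun p => w s (p, 0)) p :=
    Summable.of_nonneg_of_le (fun p => mul_nonneg hM.le (Set.indicator_nonneg (fun _ _ => hw s _) p)) h2 h1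
  calc M * ∑' p, E.indicator (fun p => w s (p, 0)) p
      = ∑' p, M * E.indicator (fun p => w s (p, 0)) p := by rw [tsum_mul_left]
    _ ≤ ∑' p : P, g (p, 0) * ‖F (p, 0)‖ ^ 2 * w s (p, 0) := h3.tsum_le_tsum h2 h1
    _ ≤ ∑' x, g x * ‖F x‖ ^ 2 * w s x :=
        Summable.tsum_le_tsum_of_inj (fun p : P => (p, 0)) hinj (fun x _ => h0 x) (fun _ => le_rfl) h1 hsum

end Pool.Agent.Y464.RP
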